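import Pool.Agent.R3B.StmtsL

set_option autoImplicit false

namespace Pool.Agent.R3B.H8

open Set Filter Topology MeasureTheory
open Pool.Agent.Helper39_Wave (phi)
open Pool.Agent.Helper72_Shell (fold fold_continuous fold_nonneg)
open Pool.Agent.R3B

/-- the damping -/
noncomputable def G (α ℓ : ℝ) (P : ℝ → ℝ → ℝ) (z : ℝ × ℝ) : ℝ :=
  bl α ℓ (z.2 - z.1) * phi α (DD P z.1 z.2)

theorem G_bd {a α ℓ : ℝ} {P : ℝ → ℝ → ℝ} (hα : 0 < α) (hℓ : 0 < ℓ) (hB : BS a α ℓ P) {z : ℝ × ℝ}
    (hz : 0 ≤ z.1) :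
    |G α ℓ P z| ≤ (2 * (Real.pi / ℓ)) ^ (α + 1) * fold ℓ (z.2 - z.1) := by
  have hf := fold_nonneg hℓ (z.2 - z.1)
  have hL : 0 ≤ 2 * (Real.pi / ℓ) := by have := Real.pi_pos; positivity
  unfold G bl
  rcases eq_or_lt_of_le hf with h0 | h0
  · rw [← h0, Real.zero_rpow (neg_ne_zero.2 hα.ne')]
    simp
  · rw [abs_mul, Pool.Agent.Helper39_Wave.abs_phi' hα, abs_of_pos (Real.rpow_pos_of_pos h0 _)]
    have h1 : |DD P z.1 z.2| ^ (α + 1) ≤ (2 * (Real.pi / ℓ) * fold ℓ (z.2 - z.1)) ^ (α + 1) :=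
      Real.rpow_le_rpow (abs_nonneg _) (hB.vb z.1 z.2 hz) (by linarith)
    calc fold ℓ (z.2 - z.1) ^ (-α) * |DD P z.1 z.2| ^ (α + 1)
        ≤ fold ℓ (z.2 - z.1) ^ (-α) * (2 * (Real.pi / ℓ) * fold ℓ (z.2 - z.1)) ^ (α + 1) :=
          mul_le_mul_of_nonneg_left h1 (Real.rpow_nonneg hf _)
      _ = (2 * (Real.pi / ℓ)) ^ (α + 1) *
          (fold ℓ (z.2 - z.1) ^ (-α) * fold ℓ (z.2 - z.1) ^ (α + 1)) := by
          rw [Real.mul_rpow hL hf]; ring
      _ = _ := by
          rw [← Real.rpow_add h0]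
          norm_num

theorem G_cont {a α ℓ : ℝ} {P : ℝ → ℝ → ℝ} (hα : 0 < α) (hℓ : 0 < ℓ) (hB : BS a α ℓ P) :
    ContinuousOn (G α ℓ P) (Ici 0 ×ˢ univ) := by
  have hDc : Continuous (fun z : ℝ × ℝ => DD P z.1 z.2) := by
    unfold DD
    exact hB.cont.sub (hB.cont.comp
      (by fun_prop : Continuous (fun z : ℝ × ℝ => (z.1, 2 * z.1 - z.2))))
  have hfc : Continuous (fun z : ℝ × ℝ => fold ℓ (z.2 - z.1)) :=
    (fold_continuous ℓ).comp (by fun_prop)
  rintro z ⟨hz, -⟩
  by_cases h0 : fold ℓ (z.2 - z.1) = 0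
  · have e0 : G α ℓ P z = 0 := by
      have h1 := G_bd hα hℓ hB (mem_Ici.1 hz)
      rw [h0, mul_zero] at h1
      exact abs_nonpos_iff.1 h1
    unfold ContinuousWithinAt
    rw [e0]
    have h2 : Tendsto (fun z : ℝ × ℝ => (2 * (Real.pi / ℓ)) ^ (α + 1) * fold ℓ (z.2 - z.1))
        (𝓝[Ici 0 ×ˢ univ] z) (𝓝 0) := by
      have h3 : Tendsto (fun z : ℝ × ℝ => (2 * (Real.pi / ℓ)) ^ (α + 1) * fold ℓ (z.2 - z.1))
          (𝓝 z) (𝓝 ((2 * (Real.pi / ℓ)) ^ (α + 1) * fold ℓ (z.2 - z.1))) :=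
        (continuous_const.mul hfc).tendsto z
      rw [h0, mul_zero] at h3
      exact h3.mono_left nhdsWithin_le_nhds
    refine squeeze_zero_norm' ?_ h2
    filter_upwards [self_mem_nhdsWithin] with w hw
    exact G_bd hα hℓ hB (mem_Ici.1 hw.1)
  · apply ContinuousAt.continuousWithinAt
    unfold G bl
    exact (hfc.continuousAt.rpow_const (Or.inl h0)).mul
      ((Pool.Agent.Helper39_Wave.continuous_phi hα).comp hDc).continuousAt

theorem pyd : PydStmt := by
  intro a α ℓ P Y ha hα hℓ hB hY hPY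
  refine ⟨G_cont hα hℓ hB, ?_⟩
  intro t y1 y2 ht
  have hGc := G_cont hα hℓ hB
  have hGs : ∀ (f : ℝ → ℝ × ℝ) (S : Set ℝ), ContinuousOn f S → (∀ s ∈ S, 0 ≤ (f s).1) →
      ContinuousOn (fun s => G α ℓ P (f s)) S := fun f S hf h0 =>
    hGc.comp hf fun s hs => ⟨h0 s hs, trivial⟩
  -- the integral formula
  have key : ∀ y h : ℝ, 0 < h → P t (y + h) - P t y =
      ∫ s in (0 : ℝ)..h, (Y (t + s) (y + s) + (a / 2) * G α ℓ P (t + s, y + h)) := by
    intro y h hh
    have h1 := hPY t h y ht hh.le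
    have h2 := hB.ode t (t + h) (y + h) ht (by linarith)
    have h3 : ∫ s in t..t + h, bl α ℓ (y + h - s) * phi α (P s (y + h) - P s (2 * s - (y + h))) =
        ∫ s in (0 : ℝ)..h, G α ℓ P (t + s, y + h) := by
      have h4 := intervalIntegral.integral_comp_add_left (a := 0) (b := h)
        (fun s => bl α ℓ (y + h - s) * phi α (P s (y + h) - P s (2 * s - (y + h)))) t
      rw [add_zero] at h4
      rw [← h4]
      rfl
    rw [h3] at h2
    rw [intervalIntegral.integral_add, intervalIntegral.integral_const_mul, ← h1]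
    · linarith
    · apply Continuous.intervalIntegrable
      exact hY.comp (by fun_prop : Continuous (fun s : ℝ => (t + s, y + s)))
    · apply IntervalIntegrable.const_mul
      apply ContinuousOn.intervalIntegrable
      rw [uIcc_of_le hh.le]
      exact hGs _ _ (by fun_prop) fun s hs => by
        show 0 ≤ t + s
        linarith [hs.1]
  have hder : ∀ y : ℝ, HasDerivWithinAt (fun y => P t y) (Y t y + (a / 2) * G α ℓ P (t, y))
      (Ioi y) y := by
    intro y
    rw [hasDerivWithinAt_iff_tendsto_slope' (by simp)]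
    rw [Metric.tendsto_nhdsWithin_nhds]
    intro ε hε
    -- continuity of the integrand
    have hW : ContinuousWithinAt (fun q : (ℝ × ℝ) × (ℝ × ℝ) =>
        Y q.1.1 q.1.2 + (a / 2) * G α ℓ P q.2) (univ ×ˢ (Ici 0 ×ˢ univ)) ((t, y), (t, y)) := by
      have hG2 : ContinuousWithinAt (fun q : (ℝ × ℝ) × (ℝ × ℝ) => G α ℓ P q.2)
          (univ ×ˢ (Ici 0 ×ˢ univ)) ((t, y), (t, y)) :=
        ContinuousWithinAt.comp (g := G α ℓ P) (t := Ici 0 ×ˢ univ)
          (hGc (t, y) ⟨ht, trivial⟩) continuousWithinAt_snd (fun q hq => hq.2)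
      apply ContinuousWithinAt.add
      · exact (hY.comp continuous_fst).continuousWithinAt
      · exact ContinuousWithinAt.mul continuousWithinAt_const hG2
    obtain ⟨δ, hδ, hδ2⟩ := Metric.continuousWithinAt_iff.1 hW (ε / 2) (by linarith)
    refine ⟨δ, hδ, ?_⟩
    intro x hx hxd
    have hx0 : y < x := hx
    obtain ⟨h, hh, rfl⟩ : ∃ h, 0 < h ∧ x = y + h := ⟨x - y, by linarith, by ring⟩
    have hhd : h < δ := by
      rw [Real.dist_eq] at hxd
      rw [show y + h - y = h by ring, abs_of_pos hh] at hxd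
      exact hxd
    rw [slope_def_field, show y + h - y = h by ring, key y h hh, Real.dist_eq]
    set D : ℝ := Y t y + (a / 2) * G α ℓ P (t, y) with hD
    have hc1 : ContinuousOn (fun s => Y (t + s) (y + s) + (a / 2) * G α ℓ P (t + s, y + h))
        (Icc 0 h) := by
      apply ContinuousOn.add
      · exact (hY.comp (by fun_prop : Continuous (fun s : ℝ => (t + s, y + s)))).continuousOn
      · apply ContinuousOn.mul continuousOn_const
        exact hGs _ _ (by fun_prop) fun s hs => by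
          show 0 ≤ t + s
          linarith [hs.1]
    have hint : IntervalIntegrable
        (fun s => Y (t + s) (y + s) + (a / 2) * G α ℓ P (t + s, y + h)) volume 0 h := by
      apply ContinuousOn.intervalIntegrable
      rw [uIcc_of_le hh.le]
      exact hc1
    have e1 : (∫ s in (0 : ℝ)..h, (Y (t + s) (y + s) + (a / 2) * G α ℓ P (t + s, y + h))) / h - D =
        (∫ s in (0 : ℝ)..h, ((Y (t + s) (y + s) + (a / 2) * G α ℓ P (t + s, y + h)) - D)) / h := by
      rw [intervalIntegral.integral_sub hint intervalIntegrable_const,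
        intervalIntegral.integral_const, smul_eq_mul, sub_zero, sub_div,
        mul_div_assoc, mul_div_cancel₀ D hh.ne']
    have e2 : ‖∫ s in (0 : ℝ)..h, ((Y (t + s) (y + s) + (a / 2) * G α ℓ P (t + s, y + h)) - D)‖ ≤
        ε / 2 * |h - 0| := by
      apply intervalIntegral.norm_integral_le_of_norm_le_const
      intro s hs
      rw [uIoc_of_le hh.le] at hs
      have h5 := @hδ2 ((t + s, y + s), (t + s, y + h)) ⟨trivial, by
        show 0 ≤ t + s
        linarith [hs.1], trivial⟩ (by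
        rw [Prod.dist_eq, Prod.dist_eq, Prod.dist_eq]
        simp only [Real.dist_eq]
        rw [show t + s - t = s by ring, show y + s - y = s by ring, show y + h - y = h by ring,
          abs_of_pos hs.1, abs_of_pos hh]
        have : s < δ := lt_of_le_of_lt hs.2 hhd
        simp only [max_lt_iff]
        exact ⟨⟨this, this⟩, this, hhd⟩)
      rw [Real.dist_eq] at h5
      exact h5.le
    rw [e1, abs_div, abs_of_pos hh, div_lt_iff₀ hh]
    rw [Real.norm_eq_abs, sub_zero, abs_of_pos hh] at e2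
    nlinarith
  have hfc : ContinuousOn (fun y => P t y) (uIcc y1 y2) :=
    (hB.cont.comp (by fun_prop : Continuous (fun y : ℝ => (t, y)))).continuousOn
  have hfin := intervalIntegral.integral_eq_sub_of_hasDeriv_right hfc
    (fun x _ => hder x) (by
      apply ContinuousOn.intervalIntegrable
      apply ContinuousOn.add
      · exact (hY.comp (by fun_prop : Continuous (fun y : ℝ => (t, y)))).continuousOn
      · apply ContinuousOn.mul continuousOn_const
        exact hGs (fun y => (t, y)) _ (by fun_prop) fun s _ => ht)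
  rw [← hfin]
  rfl

end Pool.Agent.R3B.H8
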